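import Pool.Agent.Helper6.NX.GoalsB

/-! Project NX, packet HEAVY: heavy values are rare. -/

set_option autoImplicit false
set_option linter.unusedVariables false

namespace Pool.Agent.Helper9.NX

open Equiv Filter Topology Finset
open Pool.Agent.Helper6.NX

/-! ### Laws -/

lemma le_law {Ω α : Type} [Fintype Ω] {P : Ω → ℝ} (hP : ∀ ω, 0 ≤ P ω) (X : Ω → α) (ω : Ω) :
    P ω ≤ law P X (X ω) := by
  classical
  unfold law
  calc P ω = (if X ω = X ω then P ω else 0) := by simp
    _ ≤ _ := Finset.single_le_sum (f := fun ω' => if X ω' = X ω then P ω' else 0)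
        (fun ω' _ => by split_ifs; exact hP ω'; exact le_rfl) (Finset.mem_univ ω)

lemma sum_law {Ω Ω' : Type} [Fintype Ω] [Fintype Ω'] (P : Ω → ℝ) (f : Ω → Ω') (φ : Ω' → ℝ) :
    ∑ ω', law P f ω' * φ ω' = ∑ ω, P ω * φ (f ω) := by
  classical
  unfold law
  simp_rw [Finset.sum_mul]
  rw [Finset.sum_comm]
  apply Finset.sum_congr rfl
  intro ω _
  simp [ite_mul]

lemma law_law {Ω Ω' α : Type} [Fintype Ω] [Fintype Ω'] (P : Ω → ℝ) (f : Ω → Ω') (X : Ω' → α)
    (a : α) : law (law P f) X a = law P (fun ω => X (f ω)) a := by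
  classical
  have h := sum_law P f (fun ω' => if X ω' = a then 1 else 0)
  have h1 : law (law P f) X a = ∑ ω', law P f ω' * (if X ω' = a then 1 else 0) := by
    conv_lhs => unfold law
    apply Finset.sum_congr rfl
    intro ω' _
    by_cases hx : X ω' = a
    · simp only [hx, if_true, mul_one]; rfl
    · simp [hx]
  have h2 : law P (fun ω => X (f ω)) a = ∑ ω, P ω * (if X (f ω) = a then 1 else 0) := by
    unfold law
    apply Finset.sum_congr rfl
    intro ω _
    by_cases hx : X (f ω) = a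
    · simp [hx]
    · simp [hx]
  rw [h1, h2, h]

lemma law_isLaw {Ω Ω' : Type} [Fintype Ω] [Fintype Ω'] (P : Ω → ℝ) (f : Ω → Ω') (hP : IsLaw P) :
    IsLaw (law P f) := by
  classical
  constructor
  · intro a
    unfold law
    exact Finset.sum_nonneg fun ω _ => by split_ifs; exact hP.1 ω; exact le_rfl
  · have := sum_law P f (fun _ => 1)
    simp only [mul_one] at this
    rw [this, hP.2]

lemma ent_law {Ω Ω' α : Type} [Fintype Ω] [Fintype Ω'] (P : Ω → ℝ) (f : Ω → Ω') (X : Ω' → α) :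
    ent (law P f) X = ent P (fun ω => X (f ω)) := by
  unfold ent
  rw [sum_law P f (fun ω' => Real.log (law (law P f) X (X ω')))]
  congr 1
  apply Finset.sum_congr rfl
  intro ω _
  rw [law_law]

lemma cent_law {Ω Ω' α β : Type} [Fintype Ω] [Fintype Ω'] (P : Ω → ℝ) (f : Ω → Ω') (X : Ω' → α)
    (Y : Ω' → β) : cent (law P f) X Y = cent P (fun ω => X (f ω)) (fun ω => Y (f ω)) := by
  unfold cent
  rw [ent_law, ent_law]

lemma entEq (hl2 : S_L2) {Ω α β : Type} [Fintype Ω] {P : Ω → ℝ} (hP : IsLaw P) (X : Ω → α)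
    (Y : Ω → β) (h : ∀ ω ω', X ω = X ω' ↔ Y ω = Y ω') : ent P X = ent P Y :=
  le_antisymm (hl2 Ω β α P Y X hP (fun ω ω' _ _ e => (h ω ω').2 e))
    (hl2 Ω α β P X Y hP (fun ω ω' _ _ e => (h ω ω').1 e))

/-! ### Restrictions and kernels -/

variable {n : ℕ}

lemma res_eq_iff (D : Finset (Fin n)) (g f : Perm (Fin n)) :
    res D g = res D f ↔ ∀ x ∈ D, g x = f x := by
  constructor
  · intro h x hx
    have := congrFun h x
    simpa [res, hx] using this
  · intro h
    funext x
    by_cases hx : x ∈ D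
    · simp [res, hx, h x hx]
    · simp [res, hx]

lemma im_congr {D : Finset (Fin n)} {g f : Perm (Fin n)} (h : res D g = res D f) :
    im g D = im f D := by
  rw [res_eq_iff] at h
  exact Finset.image_congr (fun x hx => h x hx)

lemma kern_law (ν : Perm (Fin n) → ℝ) (D : Finset (Fin n)) (f : Perm (Fin n)) (p : Fin n) :
    kern ν D f (f p) p = law ν (fun g => (g p, res D g)) (f p, res D f) /
      law ν (res D) (res D f) := by
  classical
  unfold kern law
  congr 1
  · apply Finset.sum_congr rfl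
    intro g _
    by_cases h : (∀ x ∈ D, g x = f x) ∧ g p = f p
    · have h' : (g p, res D g) = (f p, res D f) := by rw [h.2, (res_eq_iff D g f).2 h.1]
      rw [if_pos h, if_pos h']
    · rw [if_neg h, if_neg]
      intro h'
      rw [Prod.mk.injEq] at h'
      exact h ⟨(res_eq_iff D g f).1 h'.2, h'.1⟩
  · apply Finset.sum_congr rfl
    intro g _
    by_cases h : (∀ x ∈ D, g x = f x)
    · rw [if_pos h, if_pos ((res_eq_iff D g f).2 h)]
    · rw [if_neg h, if_neg (fun h' => h ((res_eq_iff D g f).1 h'))]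

lemma sum_log_kern (ν : Perm (Fin n) → ℝ) (hν : IsLaw ν) (D : Finset (Fin n)) (p : Fin n) :
    ∑ f, ν f * (-Real.log (kern ν D f (f p) p)) = cent ν (fun h => h p) (res D) := by
  unfold cent ent
  rw [neg_sub_neg, ← Finset.sum_sub_distrib]
  apply Finset.sum_congr rfl
  intro f _
  rcases (hν.1 f).eq_or_lt with h0 | h0
  · rw [← h0]; simp
  · have h1 : 0 < law ν (fun g => (g p, res D g)) (f p, res D f) :=
      lt_of_lt_of_le h0 (le_law hν.1 (fun g => (g p, res D g)) f)
    have h2 : 0 < law ν (res D) (res D f) := lt_of_lt_of_le h0 (le_law hν.1 (res D) f)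
    rw [kern_law, Real.log_div h1.ne' h2.ne']
    ring

/-- conditional probability that `g u = b` given that `g` extends the partial map `r` -/
noncomputable def KK (ν : Perm (Fin n) → ℝ) (r : Fin n → Option (Fin n)) (b u : Fin n) : ℝ := by
  classical exact (∑ g : Perm (Fin n), if (∀ x y, r x = some y → g x = y) ∧ g u = b then ν g else 0) /
    (∑ g : Perm (Fin n), if (∀ x y, r x = some y → g x = y) then ν g else 0)

lemma ext_res (D : Finset (Fin n)) (f g : Perm (Fin n)) :
    (∀ x y, res D f x = some y → g x = y) ↔ ∀ x ∈ D, g x = f x := by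
  constructor
  · intro h x hx
    exact h x (f x) (by simp [res, hx])
  · intro h x y hxy
    by_cases hx : x ∈ D
    · have : f x = y := by simpa [res, hx] using hxy
      rw [h x hx, this]
    · simp [res, hx] at hxy

lemma KK_res (ν : Perm (Fin n) → ℝ) (D : Finset (Fin n)) (f : Perm (Fin n)) (b u : Fin n) :
    KK ν (res D f) b u = kern ν D f b u := by
  classical
  unfold KK kern
  congr 1
  · apply Finset.sum_congr rfl
    intro g _
    by_cases h : (∀ x ∈ D, g x = f x) ∧ g u = b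
    · rw [if_pos h, if_pos ⟨(ext_res D f g).2 h.1, h.2⟩]
    · rw [if_neg h, if_neg (fun h' => h ⟨(ext_res D f g).1 h'.1, h'.2⟩)]
  · apply Finset.sum_congr rfl
    intro g _
    by_cases h : (∀ x ∈ D, g x = f x)
    · rw [if_pos h, if_pos ((ext_res D f g).2 h)]
    · rw [if_neg h, if_neg (fun h' => h ((ext_res D f g).1 h'))]

lemma KK_nonneg {ν : Perm (Fin n) → ℝ} (hν : ∀ g, 0 ≤ ν g) (r : Fin n → Option (Fin n))
    (b u : Fin n) : 0 ≤ KK ν r b u := by
  classical
  unfold KK
  apply div_nonneg <;> exact Finset.sum_nonneg fun g _ => by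
    split_ifs
    · exact hν g
    · exact le_rfl

/-- a sum of conditional probabilities of the values of a function -/
lemma sum_cond {G A : Type} [Fintype G] [Fintype A] (ν : G → ℝ) (c : G → Prop) [DecidablePred c]
    (e : G → A → Prop) [∀ g v, Decidable (e g v)] (τ : G → A) (h : ∀ g v, e g v ↔ τ g = v) :
    ∑ v, (∑ g, if c g ∧ e g v then ν g else 0) / (∑ g, if c g then ν g else 0) ≤ 1 := by
  classical
  rw [← Finset.sum_div, Finset.sum_comm]
  have : ∑ g, ∑ v, (if c g ∧ e g v then ν g else 0) = ∑ g, if c g then ν g else 0 := by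
    apply Finset.sum_congr rfl
    intro g _
    by_cases hc : c g
    · simp [hc, h]
    · simp [hc]
  rw [this]
  exact div_self_le_one _

lemma sum_KK_right (ν : Perm (Fin n) → ℝ) (r : Fin n → Option (Fin n)) (b : Fin n) :
    ∑ u, KK ν r b u ≤ 1 := by
  classical
  unfold KK
  exact sum_cond ν (fun g : Perm (Fin n) => ∀ x y, r x = some y → g x = y)
    (fun g u => g u = b) (fun g => g.symm b) (fun g v => by
      rw [Equiv.symm_apply_eq]; exact eq_comm)

lemma sum_KK_left (ν : Perm (Fin n) → ℝ) (r : Fin n → Option (Fin n)) (p : Fin n) :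
    ∑ v, KK ν r v p ≤ 1 := by
  classical
  unfold KK
  exact sum_cond ν (fun g : Perm (Fin n) => ∀ x y, r x = some y → g x = y)
    (fun g v => g p = v) (fun g => g p) (fun g v => Iff.rfl)

/-! ### One position -/

lemma sum_mixl {I Ω : Type} [Fintype I] [Fintype Ω] (p : I → ℝ) (Q : I → Ω → ℝ)
    (φ : I → Ω → ℝ) : ∑ z : I × Ω, mixl p Q z * φ z.1 z.2 = ∑ i, p i * ∑ ω, Q i ω * φ i ω := by
  rw [Fintype.sum_prod_type]
  apply Finset.sum_congr rfl
  intro i _
  rw [Finset.mul_sum]
  apply Finset.sum_congr rfl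
  intro ω _
  simp only [mixl]
  ring

lemma conv_swap (ν : Perm (Fin n) → ℝ) :
    law (mixl ν (fun _ : Perm (Fin n) => ν)) (fun z => z.2 * z.1) = conv ν ν := by
  classical
  funext a
  unfold conv law
  rw [← (Equiv.prodComm (Perm (Fin n)) (Perm (Fin n))).sum_comp]
  apply Finset.sum_congr rfl
  intro z _
  simp only [Equiv.prodComm_apply, Prod.fst_swap, Prod.snd_swap, mixl, prd]
  by_cases h : z.1 * z.2 = a
  · rw [if_pos h, if_pos h]
    exact mul_comm _ _
  · rw [if_neg h, if_neg h]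

open Classical in
theorem one_pos (hl2 : S_L2) (hl3 : S_L3) (hl4 : S_L4) (hl7 : S_L7) (hvp : S_VP)
    (n : ℕ) (ν : Perm (Fin n) → ℝ) (s : ℝ) (hn : 3 ≤ n) (hν : IsLaw ν)
    (p : Fin n) (D : Finset (Fin n)) :
    FF ν p D ≤ FF (conv ν ν) p D - ∑ h, ν h * FF ν (h p) (im h D) + Real.log 2 / Real.log n +
      ∑ h, ν h * (if (n : ℝ) ^ (-s) ≤ kern ν D h (h p) p then s else FF ν (h p) (im h D)) := by
  have hn1 : (1 : ℝ) < n := by
    have : (3 : ℝ) ≤ n := by exact_mod_cast hn
    linarith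
  have hn0 : (0 : ℝ) < n := by linarith
  have hlog : 0 < Real.log n := Real.log_pos hn1
  let P : Perm (Fin n) × Perm (Fin n) → ℝ := mixl ν (fun _ : Perm (Fin n) => ν)
  have h7 := hl7 (Perm (Fin n)) (Perm (Fin n)) (Fin n) (Fin n → Option (Fin n)) Unit ν
    (fun _ => ν) (fun h f => f (h p)) (fun h f => res (im h D) f) (fun _ => ()) hν (fun _ => hν)
  have hP : IsLaw P := h7.1
  let q : Perm (Fin n) × Perm (Fin n) → Fin n := fun z => z.1 p
  let C : Perm (Fin n) × Perm (Fin n) → (Fin n → Option (Fin n)) × (Fin n → Option (Fin n)) :=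
    fun z => (res D z.1, res (im z.1 D) z.2)
  let b : Perm (Fin n) × Perm (Fin n) → Fin n := fun z => z.2 (z.1 p)
  have hVP := hvp n ν (by omega) hν
  have hlawc : IsLaw (conv ν ν) := by
    rw [← conv_swap]; exact law_isLaw _ _ hP
  have hVPc := hvp n (conv ν ν) (by omega) hlawc
  have hFF : ∀ p' D', cent ν (fun h => h p') (res D') = Real.log n * FF ν p' D' := by
    intro p' D'
    rw [hVP.1 p' D']
    field_simp
  -- (a)
  have ha : cent ν (fun h => h p) (res D) ≤ cent P q C := by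
    have h1 := (hl4 _ _ _ _ P q (fun z => z.2) C hP).1
    refine le_trans (le_of_eq ?_) h1
    unfold cent
    have e1 : ent P (fun ω => (q ω, (fun z : Perm (Fin n) × Perm (Fin n) => (z.2, C z)) ω)) =
        ent ν (fun h => (h p, res D h)) + ent ν (fun f => f) := by
      have h7' := (hl7 (Perm (Fin n)) (Perm (Fin n)) (Perm (Fin n)) Unit
        (Fin n × (Fin n → Option (Fin n))) ν
        (fun _ => ν) (fun h f => f) (fun h f => ()) (fun h => (h p, res D h)) hν
        (fun _ => hν)).2.2.2.2 ν (fun f => f) hν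
      have h7'' : ent P (fun z => ((z.1 p, res D z.1), z.2)) =
          ent ν (fun h => (h p, res D h)) + ent ν (fun f => f) := h7'.2.1
      rw [← h7'']
      apply entEq hl2 hP
      intro z z'
      simp only [q, C, Prod.mk.injEq]
      constructor
      · rintro ⟨h1, h2, h3, h4⟩
        exact ⟨⟨h1, h3⟩, h2⟩
      · rintro ⟨⟨h1, h3⟩, h2⟩
        exact ⟨h1, h2, h3, by rw [im_congr h3, h2]⟩
    have e2 : ent P (fun z : Perm (Fin n) × Perm (Fin n) => (z.2, C z)) =
        ent ν (res D) + ent ν (fun f => f) := by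
      have h7' := (hl7 (Perm (Fin n)) (Perm (Fin n)) (Perm (Fin n)) Unit
        (Fin n → Option (Fin n)) ν
        (fun _ => ν) (fun h f => f) (fun h f => ()) (fun h => res D h) hν
        (fun _ => hν)).2.2.2.2 ν (fun f => f) hν
      have h7'' : ent P (fun z => (res D z.1, z.2)) =
          ent ν (res D) + ent ν (fun f => f) := h7'.2.1
      rw [← h7'']
      apply entEq hl2 hP
      intro z z'
      simp only [C, Prod.mk.injEq]
      constructor
      · rintro ⟨h2, h3, h4⟩
        exact ⟨h3, h2⟩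
      · rintro ⟨h3, h2⟩
        exact ⟨h2, h3, by rw [im_congr h3, h2]⟩
    rw [e1, e2]
    ring
  -- (b)
  have hb : cent P q C = cent P b C - cent P b (fun z => (C z, q z)) +
      cent P q (fun z => (C z, b z)) := by
    unfold cent
    have e1 : ent P (fun ω => (q ω, C ω)) = ent P (fun z => (C z, q z)) := by
      apply entEq hl2 hP
      intro z z'
      simp only [Prod.mk.injEq]
      exact and_comm
    have e2 : ent P (fun ω => (b ω, C ω)) = ent P (fun z => (C z, b z)) := by
      apply entEq hl2 hP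
      intro z z'
      simp only [Prod.mk.injEq]
      exact and_comm
    have e3 : ent P (fun ω => (b ω, (C ω, q ω))) = ent P (fun ω => (q ω, (C ω, b ω))) := by
      apply entEq hl2 hP
      intro z z'
      simp only [Prod.mk.injEq]
      tauto
    rw [e1, e2, e3]
    ring
  -- (c)
  have hc : cent P b C ≤ Real.log n * FF (conv ν ν) p D := by
    have h1 := (hl4 _ _ _ _ P b C (fun z => res D (z.2 * z.1)) hP).1
    have hdet : ∀ z z' : Perm (Fin n) × Perm (Fin n), C z = C z' →
        res D (z.2 * z.1) = res D (z'.2 * z'.1) := by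
      intro z z' h
      simp only [C, Prod.mk.injEq] at h
      have h3 := (res_eq_iff _ _ _).1 h.1
      have h4 : res (im z.1 D) z.2 = res (im z.1 D) z'.2 := by
        rw [h.2, im_congr h.1]
      have h5 := (res_eq_iff _ _ _).1 h4
      rw [res_eq_iff]
      intro x hx
      rw [Perm.mul_apply, Perm.mul_apply, h5 (z.1 x) (Finset.mem_image_of_mem _ hx), h3 x hx]
    have h2 : cent P b (fun ω => (C ω, res D (ω.2 * ω.1))) = cent P b C := by
      unfold cent
      congr 1
      · apply entEq hl2 hP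
        intro z z'
        simp only [Prod.mk.injEq]
        constructor
        · rintro ⟨h1, h2, h3⟩; exact ⟨h1, h2⟩
        · rintro ⟨h1, h2⟩; exact ⟨h1, h2, hdet z z' h2⟩
      · apply entEq hl2 hP
        intro z z'
        rw [Prod.mk.injEq]
        exact ⟨fun h => h.1, fun h => ⟨h, hdet z z' h⟩⟩
    rw [h2] at h1
    refine h1.trans (le_of_eq ?_)
    have h3 := cent_law P (fun z => z.2 * z.1) (fun g : Perm (Fin n) => g p) (res D)
    have h4 : law P (fun z => z.2 * z.1) = conv ν ν := conv_swap ν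
    rw [h4] at h3
    rw [hVPc.1 p D, h3, mul_div_cancel₀ _ hlog.ne']
    rfl
  -- (d)
  have hd : Real.log n * ∑ h, ν h * FF ν (h p) (im h D) ≤ cent P b (fun z => (C z, q z)) := by
    have h1 := (hl4 _ _ _ _ P b (fun z => z.1) (fun z => (C z, q z)) hP).1
    refine le_trans (le_of_eq ?_) h1
    have h2 : cent P b (fun ω => (ω.1, (C ω, q ω))) =
        cent P (fun z => z.2 (z.1 p)) (fun z => (res (im z.1 D) z.2, z.1)) := by
      unfold cent
      congr 1
      · apply entEq hl2 hP
        intro z z'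
        simp only [Prod.mk.injEq, C, q, b]
        constructor
        · rintro ⟨h1, h2, ⟨h3, h4⟩, h5⟩
          exact ⟨h1, h4, h2⟩
        · rintro ⟨h1, h4, h2⟩
          exact ⟨h1, h2, ⟨by rw [h2], h4⟩, by rw [h2]⟩
      · apply entEq hl2 hP
        intro z z'
        simp only [Prod.mk.injEq, C, q]
        constructor
        · rintro ⟨h2, ⟨h3, h4⟩, h5⟩
          exact ⟨h4, h2⟩
        · rintro ⟨h4, h2⟩
          exact ⟨h2, ⟨by rw [h2], h4⟩, by rw [h2]⟩
    rw [h2]
    have h3 : cent P (fun z => z.2 (z.1 p)) (fun z => (res (im z.1 D) z.2, z.1)) =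
        ∑ h, ν h * cent ν (fun f => f (h p)) (res (im h D)) := h7.2.1
    rw [h3, Finset.mul_sum]
    apply Finset.sum_congr rfl
    intro h _
    rw [hFF]
    ring
  -- (e)
  let A : (Fin n → Option (Fin n)) → Finset (Fin n) := fun r =>
    Finset.univ.filter (fun v => (n : ℝ) ^ (-s) ≤ KK ν r v p)
  have hAcard : ∀ r, ((A r).card : ℝ) * (n : ℝ) ^ (-s) ≤ 1 := by
    intro r
    calc ((A r).card : ℝ) * (n : ℝ) ^ (-s) = ∑ v ∈ A r, (n : ℝ) ^ (-s) := by
          rw [Finset.sum_const, nsmul_eq_mul]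
      _ ≤ ∑ v ∈ A r, KK ν r v p := Finset.sum_le_sum fun v hv => (Finset.mem_filter.1 hv).2
      _ ≤ ∑ v, KK ν r v p := Finset.sum_le_sum_of_subset_of_nonneg (Finset.subset_univ _)
          (fun v _ _ => KK_nonneg hν.1 _ _ _)
      _ ≤ 1 := sum_KK_left ν r p
  let Q : ((Fin n → Option (Fin n)) × (Fin n → Option (Fin n))) × Fin n → Fin n → ℝ :=
    fun c v => 1 / 2 * (if v ∈ A c.1.1 then ((A c.1.1).card : ℝ)⁻¹ else 0) +
      1 / 2 * KK ν c.1.2 c.2 v
  have hQ0 : ∀ c v, 0 ≤ Q c v := by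
    intro c v
    have h1 := KK_nonneg hν.1 c.1.2 c.2 v
    have h2 : (0 : ℝ) ≤ (if v ∈ A c.1.1 then ((A c.1.1).card : ℝ)⁻¹ else 0) := by
      split_ifs
      · exact inv_nonneg.2 (Nat.cast_nonneg _)
      · exact le_rfl
    simp only [Q]
    linarith
  have hQ1 : ∀ c, ∀ t : Finset (Fin n), ∑ v ∈ t, Q c v ≤ 1 := by
    intro c t
    have h1 : ∑ v ∈ t, Q c v ≤ ∑ v, Q c v :=
      Finset.sum_le_sum_of_subset_of_nonneg (Finset.subset_univ _) (fun v _ _ => hQ0 c v)
    have h2 : ∑ v, Q c v = 1 / 2 * ∑ v, (if v ∈ A c.1.1 then ((A c.1.1).card : ℝ)⁻¹ else 0) +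
        1 / 2 * ∑ v, KK ν c.1.2 c.2 v := by
      simp only [Q]
      rw [Finset.sum_add_distrib, ← Finset.mul_sum, ← Finset.mul_sum]
    have h3 : ∑ v, (if v ∈ A c.1.1 then ((A c.1.1).card : ℝ)⁻¹ else 0) ≤ 1 := by
      rw [Finset.sum_ite_mem, Finset.univ_inter, Finset.sum_const, nsmul_eq_mul]
      exact mul_inv_le_one
    have h4 := sum_KK_right ν c.1.2 c.2
    linarith
  have hQz : ∀ z : Perm (Fin n) × Perm (Fin n), Q (C z, b z) (q z) =
      1 / 2 * (if (n : ℝ) ^ (-s) ≤ kern ν D z.1 (z.1 p) p then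
        ((A (res D z.1)).card : ℝ)⁻¹ else 0) +
      1 / 2 * kern ν (im z.1 D) z.2 (z.2 (z.1 p)) (z.1 p) := by
    intro z
    simp only [Q, C, b, q, KK_res]
    congr 2
    have : z.1 p ∈ A (res D z.1) ↔ (n : ℝ) ^ (-s) ≤ kern ν D z.1 (z.1 p) p := by
      simp only [A, Finset.mem_filter, Finset.mem_univ, true_and, KK_res]
    simp only [this]
  have hkpos : ∀ z : Perm (Fin n) × Perm (Fin n), 0 < ν z.2 →
      0 < kern ν (im z.1 D) z.2 (z.2 (z.1 p)) (z.1 p) := by
    intro z hz
    rw [kern_law]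
    exact div_pos (lt_of_lt_of_le hz (le_law hν.1 (fun g => (g (z.1 p), res (im z.1 D) g)) z.2))
      (lt_of_lt_of_le hz (le_law hν.1 (res (im z.1 D)) z.2))
  have hPz : ∀ z, 0 < P z → 0 < ν z.1 ∧ 0 < ν z.2 := by
    intro z hz
    have hz' : 0 < ν z.1 * ν z.2 := hz
    constructor
    · rcases (hν.1 z.1).eq_or_lt with h | h
      · rw [← h, zero_mul] at hz'; exact absurd hz' (lt_irrefl _)
      · exact h
    · rcases (hν.1 z.2).eq_or_lt with h | h
      · rw [← h, mul_zero] at hz'; exact absurd hz' (lt_irrefl _)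
      · exact h
  have hQpos : ∀ z, 0 < P z → 0 < Q (C z, b z) (q z) := by
    intro z hz
    rw [hQz]
    have h1 := hkpos z (hPz z hz).2
    have h2 : (0 : ℝ) ≤ (if (n : ℝ) ^ (-s) ≤ kern ν D z.1 (z.1 p) p then
        ((A (res D z.1)).card : ℝ)⁻¹ else 0) := by
      split_ifs
      · exact inv_nonneg.2 (Nat.cast_nonneg _)
      · exact le_rfl
    linarith
  have hG := hl3 _ _ _ P q (fun z => (C z, b z)) Q hP hQ0 hQ1 hQpos
  have hpt : ∀ z, P z * (-Real.log (Q (C z, b z) (q z))) ≤ P z * (Real.log 2 +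
      (if (n : ℝ) ^ (-s) ≤ kern ν D z.1 (z.1 p) p then s * Real.log n else
        -Real.log (kern ν (im z.1 D) z.2 (z.2 (z.1 p)) (z.1 p)))) := by
    intro z
    rcases (hP.1 z).eq_or_lt with h0 | h0
    · rw [← h0]; simp
    apply mul_le_mul_of_nonneg_left _ h0.le
    have hk := hkpos z (hPz z h0).2
    have hQp := hQpos z h0
    rw [hQz] at hQp ⊢
    split_ifs with hA
    · rw [if_pos hA] at hQp
      have hmem : z.1 p ∈ A (res D z.1) := by
        simp only [A, Finset.mem_filter, Finset.mem_univ, true_and, KK_res]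
        exact hA
      have hcard : (0 : ℝ) < (A (res D z.1)).card := by
        exact_mod_cast Finset.card_pos.2 ⟨_, hmem⟩
      have h1 : (n : ℝ) ^ (-s) ≤ ((A (res D z.1)).card : ℝ)⁻¹ := by
        rw [← one_div, le_div_iff₀ hcard]
        have := hAcard (res D z.1)
        linarith
      have h2 : 1 / 2 * (n : ℝ) ^ (-s) ≤ 1 / 2 * ((A (res D z.1)).card : ℝ)⁻¹ +
          1 / 2 * kern ν (im z.1 D) z.2 (z.2 (z.1 p)) (z.1 p) := by linarith
      have h3 : 0 < 1 / 2 * (n : ℝ) ^ (-s) := by positivity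
      have h4 := Real.log_le_log h3 h2
      rw [Real.log_mul (by norm_num) (by positivity), Real.log_rpow hn0, one_div,
        Real.log_inv] at h4
      rw [one_div] 
      linarith
    · rw [mul_zero, zero_add, Real.log_mul (by norm_num) hk.ne', one_div, Real.log_inv]
      linarith
  have he : cent P q (fun z => (C z, b z)) ≤ Real.log 2 + Real.log n *
      ∑ h, ν h * (if (n : ℝ) ^ (-s) ≤ kern ν D h (h p) p then s else FF ν (h p) (im h D)) := by
    have h1 : -∑ z, P z * Real.log (Q (C z, b z) (q z)) =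
        ∑ z, P z * (-Real.log (Q (C z, b z) (q z))) := by
      rw [← Finset.sum_neg_distrib]
      apply Finset.sum_congr rfl
      intro z _
      ring
    have h2 := Finset.sum_le_sum (fun z (_ : z ∈ (Finset.univ : Finset _)) => hpt z)
    have h3 : ∑ z, P z * (Real.log 2 +
      (if (n : ℝ) ^ (-s) ≤ kern ν D z.1 (z.1 p) p then s * Real.log n else
        -Real.log (kern ν (im z.1 D) z.2 (z.2 (z.1 p)) (z.1 p)))) =
        ∑ h, ν h * ∑ f, ν f * (Real.log 2 +
      (if (n : ℝ) ^ (-s) ≤ kern ν D h (h p) p then s * Real.log n else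
        -Real.log (kern ν (im h D) f (f (h p)) (h p)))) :=
      sum_mixl ν (fun _ => ν) (fun h f => (Real.log 2 +
      (if (n : ℝ) ^ (-s) ≤ kern ν D h (h p) p then s * Real.log n else
        -Real.log (kern ν (im h D) f (f (h p)) (h p)))))
    have h4 : ∀ h, ∑ f, ν f * (Real.log 2 +
      (if (n : ℝ) ^ (-s) ≤ kern ν D h (h p) p then s * Real.log n else
        -Real.log (kern ν (im h D) f (f (h p)) (h p)))) = Real.log 2 + Real.log n *
        (if (n : ℝ) ^ (-s) ≤ kern ν D h (h p) p then s else FF ν (h p) (im h D)) := by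
      intro h
      simp only [mul_add]
      rw [Finset.sum_add_distrib, ← Finset.sum_mul, hν.2, one_mul]
      congr 1
      split_ifs with hA
      · rw [← Finset.sum_mul, hν.2]; ring
      · rw [sum_log_kern ν hν, hFF]
    have h5 : ∑ h, ν h * (Real.log 2 + Real.log n *
        (if (n : ℝ) ^ (-s) ≤ kern ν D h (h p) p then s else FF ν (h p) (im h D))) =
        Real.log 2 + Real.log n *
      ∑ h, ν h * (if (n : ℝ) ^ (-s) ≤ kern ν D h (h p) p then s else FF ν (h p) (im h D)) := by
      simp only [mul_add]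
      rw [Finset.sum_add_distrib, ← Finset.sum_mul, hν.2, one_mul, Finset.mul_sum]
      congr 1
      apply Finset.sum_congr rfl
      intro h _
      ring
    rw [h1] at hG
    refine hG.trans (h2.trans (le_of_eq ?_))
    rw [h3, ← h5]
    apply Finset.sum_congr rfl
    intro h _
    rw [h4]
  have hfin : Real.log n * FF ν p D ≤ Real.log n * (FF (conv ν ν) p D -
      ∑ h, ν h * FF ν (h p) (im h D) + Real.log 2 / Real.log n +
      ∑ h, ν h * (if (n : ℝ) ^ (-s) ≤ kern ν D h (h p) p then s else FF ν (h p) (im h D))) := by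
    rw [← hFF p D]
    have e : Real.log n * (FF (conv ν ν) p D -
      ∑ h, ν h * FF ν (h p) (im h D) + Real.log 2 / Real.log n +
      ∑ h, ν h * (if (n : ℝ) ^ (-s) ≤ kern ν D h (h p) p then s else FF ν (h p) (im h D))) =
      Real.log n * FF (conv ν ν) p D - Real.log n * ∑ h, ν h * FF ν (h p) (im h D) +
      (Real.log 2 + Real.log n *
      ∑ h, ν h * (if (n : ℝ) ^ (-s) ≤ kern ν D h (h p) p then s else FF ν (h p) (im h D))) := by
      field_simp
      ring
    rw [e]
    linarith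
  exact le_of_mul_le_mul_left hfin hlog

/-! ### Averages over the positions -/

lemma im_mul (h π : Perm (Fin n)) (S : Finset (Fin n)) : im (h * π) S = im h (im π S) := by
  unfold im
  rw [Finset.image_image]
  rfl

lemma sum_shift (h : Perm (Fin n)) (G : Perm (Fin n) → ℝ) :
    ∑ π, G (h * π) = ∑ π, G π := _root_.Equiv.sum_comp (Equiv.mulLeft h) G

theorem thmHEAVY (hl2 : Pool.Agent.Helper6.NX.S_L2) (hl3 : Pool.Agent.Helper6.NX.S_L3)
    (hl4 : Pool.Agent.Helper6.NX.S_L4) (hl7 : Pool.Agent.Helper6.NX.S_L7)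
    (havg : Pool.Agent.Helper6.NX.S_AVG) (hvp : Pool.Agent.Helper6.NX.S_VP) :
    Pool.Agent.Helper6.NX.S_HEAVY := by
  classical
  intro n k hk ν σ s hn hν hs hσ
  have hP := (hl7 (Perm (Fin n)) (Perm (Fin n)) Unit Unit Unit ν
    (fun _ => ν) (fun h f => ()) (fun h f => ()) (fun _ => ()) hν (fun _ => hν)).1
  have hlawc : IsLaw (conv ν ν) := by
    rw [← conv_swap]; exact law_isLaw _ _ hP
  have hVP := (hvp n ν (by omega) hν).2.2.2.1 k
  have hVPc := (hvp n (conv ν ν) (by omega) hlawc).2.2.2.1 k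
  unfold avF at hVP hVPc
  rw [dif_pos hk] at hVP hVPc
  set G : Perm (Fin n) → ℝ := fun π => FF ν (π ⟨k, hk⟩) (im π (ini n k)) with hG
  set V := VV ν k with hV
  set N : ℝ := (n.factorial : ℝ) with hN
  have hN0 : 0 < N := by rw [hN]; exact_mod_cast n.factorial_pos
  have hcard : ∑ _π : Perm (Fin n), (1 : ℝ) = N := by
    rw [Finset.sum_const, Finset.card_univ, Fintype.card_perm, Fintype.card_fin, nsmul_eq_mul,
      mul_one]
  -- one position
  have h1 : ∀ π : Perm (Fin n), G π ≤ FF (conv ν ν) (π ⟨k, hk⟩) (im π (ini n k)) -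
      ∑ h, ν h * G (h * π) + Real.log 2 / Real.log n +
      ∑ h, ν h * (if (n : ℝ) ^ (-s) ≤ kap ν k hk π h then s else G (h * π)) := by
    intro π
    have h2 := one_pos hl2 hl3 hl4 hl7 hvp n ν s hn hν (π ⟨k, hk⟩) (im π (ini n k))
    have e1 : ∀ h : Perm (Fin n), G (h * π) = FF ν (h (π ⟨k, hk⟩)) (im h (im π (ini n k))) := by
      intro h
      simp only [hG]
      rw [im_mul, Perm.mul_apply]
    have e2 : ∑ h, ν h * (if (n : ℝ) ^ (-s) ≤ kap ν k hk π h then s else G (h * π)) =
        ∑ h, ν h * (if (n : ℝ) ^ (-s) ≤ kern ν (im π (ini n k)) h (h (π ⟨k, hk⟩)) (π ⟨k, hk⟩)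
          then s else FF ν (h (π ⟨k, hk⟩)) (im h (im π (ini n k)))) := by
      apply Finset.sum_congr rfl
      intro h _
      rw [e1]
      rfl
    have e3 : ∑ h, ν h * G (h * π) =
        ∑ h, ν h * FF ν (h (π ⟨k, hk⟩)) (im h (im π (ini n k))) := by
      apply Finset.sum_congr rfl
      intro h _
      rw [e1]
    rw [e2, e3]
    convert h2 using 4
  -- the pointwise bound of the last term
  have h2 : ∀ π h : Perm (Fin n), ν h * (if (n : ℝ) ^ (-s) ≤ kap ν k hk π h then s
      else G (h * π)) ≤ ν h * V + (if (n : ℝ) ^ (-s) ≤ kap ν k hk π h then ν h else 0) * (s - V) +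
        ν h * |G (h * π) - V| := by
    intro π h
    have hh := hν.1 h
    have ha := abs_nonneg (G (h * π) - V)
    have ha' := le_abs_self (G (h * π) - V)
    split_ifs
    · nlinarith [mul_nonneg hh ha]
    · nlinarith [mul_le_mul_of_nonneg_left ha' hh]
  -- summation
  have h3 : ∑ π, G π ≤ ∑ π : Perm (Fin n), FF (conv ν ν) (π ⟨k, hk⟩) (im π (ini n k)) -
      ∑ π : Perm (Fin n), ∑ h, ν h * G (h * π) + ∑ _π : Perm (Fin n), Real.log 2 / Real.log n +
      ∑ π : Perm (Fin n), ∑ h, (ν h * V +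
        (if (n : ℝ) ^ (-s) ≤ kap ν k hk π h then ν h else 0) * (s - V) +
        ν h * |G (h * π) - V|) := by
    rw [← Finset.sum_sub_distrib, ← Finset.sum_add_distrib, ← Finset.sum_add_distrib]
    apply Finset.sum_le_sum
    intro π _
    refine (h1 π).trans ?_
    have := Finset.sum_le_sum (fun h (_ : h ∈ (Finset.univ : Finset (Perm (Fin n)))) => h2 π h)
    linarith
  have s1 : ∑ π : Perm (Fin n), ∑ h, ν h * G (h * π) = ∑ π, G π := by
    rw [Finset.sum_comm]
    simp only [← Finset.mul_sum]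
    simp only [sum_shift]
    rw [← Finset.sum_mul, hν.2, one_mul]
  have s2 : ∑ π : Perm (Fin n), ∑ h, ν h * |G (h * π) - V| = ∑ π, |G π - V| := by
    rw [Finset.sum_comm]
    simp only [← Finset.mul_sum]
    have : ∀ h : Perm (Fin n), ∑ π, |G (h * π) - V| = ∑ π, |G π - V| :=
      fun h => sum_shift h (fun π => |G π - V|)
    simp only [this]
    rw [← Finset.sum_mul, hν.2, one_mul]
  have s3 : ∑ π : Perm (Fin n), ∑ h, (ν h * V +
        (if (n : ℝ) ^ (-s) ≤ kap ν k hk π h then ν h else 0) * (s - V) +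
        ν h * |G (h * π) - V|) = N * V + (∑ π : Perm (Fin n), ∑ f,
    (if (n : ℝ) ^ (-s) ≤ kap ν k hk π f then ν f else 0)) * (s - V) + ∑ π, |G π - V| := by
    simp only [Finset.sum_add_distrib]
    rw [s2]
    congr 1
    congr 1
    · simp only [← Finset.sum_mul, hν.2, one_mul]
      rw [← hcard, Finset.sum_mul]
      simp
    · simp only [← Finset.sum_mul]
  have s4 : ∑ _π : Perm (Fin n), Real.log 2 / Real.log n = N * (Real.log 2 / Real.log n) := by
    rw [← hcard, Finset.sum_mul]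
    simp
  rw [s1, s3, s4] at h3
  have h4 := mul_le_mul_of_nonneg_left h3 (inv_nonneg.2 hN0.le)
  have hσ' : N⁻¹ * ∑ π, |G π - V| ≤ σ := hσ
  have hVe : V = N⁻¹ * ∑ π, G π := hVP
  have hVce : VV (conv ν ν) k =
      N⁻¹ * ∑ π : Perm (Fin n), FF (conv ν ν) (π ⟨k, hk⟩) (im π (ini n k)) := hVPc
  rw [hVce]
  have e5 : N⁻¹ * (∑ π : Perm (Fin n), FF (conv ν ν) (π ⟨k, hk⟩) (im π (ini n k)) - ∑ π, G π +
      N * (Real.log 2 / Real.log n) + (N * V + (∑ π : Perm (Fin n), ∑ f,
    (if (n : ℝ) ^ (-s) ≤ kap ν k hk π f then ν f else 0)) * (s - V) + ∑ π, |G π - V|)) =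
      N⁻¹ * ∑ π : Perm (Fin n), FF (conv ν ν) (π ⟨k, hk⟩) (im π (ini n k)) - N⁻¹ * ∑ π, G π +
      Real.log 2 / Real.log n + V + (N⁻¹ * ∑ π : Perm (Fin n), ∑ f,
    (if (n : ℝ) ^ (-s) ≤ kap ν k hk π f then ν f else 0)) * (s - V) +
      N⁻¹ * ∑ π, |G π - V| := by
    have : N⁻¹ * N = 1 := inv_mul_cancel₀ hN0.ne'
    linear_combination (Real.log 2 / Real.log n + V) * this
  rw [e5, ← hVe] at h4
  nlinarith [h4, hσ']

end Pool.Agent.Helper9.NX
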